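import Pool.Agent.helper26.HuxleyWave

/-!
# MP_7987d1_an: time-increasing solutions of the parabolic Allen-Cahn equation in every dimension

For every `n ≥ 1` (here `n = m + 1`) the equation `Δu - u_t = u³ - u` has a smooth solution on all of
`ℝⁿ × ℝ` with `0 < u < 1`, `∂u/∂x_n > 0` and `u_t > 0` everywhere.  It is admissible in the sense
of the problem on every half-space of times, and it is on no such half-space of the form `g(a·x)`.
-/

set_option autoImplicit false

namespace Pool.Agent.Results.MP_7987d1_an.ExplicitWave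

open Pool.Agent.helper26.HuxleyWave

theorem result (m : ℕ) : ∃ u : EuclideanSpace ℝ (Fin (m + 1)) × ℝ → ℝ,
    ContDiff ℝ (↑(⊤ : ℕ∞)) u ∧
    (∀ (x : EuclideanSpace ℝ (Fin (m + 1))) (t : ℝ), 0 < u (x, t) ∧ u (x, t) < 1 ∧
      (∑ i : Fin (m + 1), iteratedFDeriv ℝ 2 (fun y => u (y, t)) x
          (fun _ => EuclideanSpace.single i (1 : ℝ)))
        - deriv (fun s => u (x, s)) t = u (x, t) ^ 3 - u (x, t) ∧
      0 < fderiv ℝ (fun y => u (y, t)) x (EuclideanSpace.single (Fin.last m) (1 : ℝ)) ∧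
      0 < deriv (fun s => u (x, s)) t) ∧
    ∀ T : ℝ, ¬ ∃ (ν : EuclideanSpace ℝ (Fin (m + 1))) (g : ℝ → ℝ),
      ∀ (x : EuclideanSpace ℝ (Fin (m + 1))) (t : ℝ), t ≤ T → u (x, t) = g (inner ℝ ν x) := by
  have hsm : ContDiff ℝ (↑(⊤ : ℕ∞)) (wave m) := by
    have h1 : ContDiff ℝ (↑(⊤ : ℕ∞)) Real.sigmoid := contDiff_sigmoid.of_le (by exact_mod_cast le_top)
    have h2 : ContDiff ℝ (↑(⊤ : ℕ∞)) (fun p : EuclideanSpace ℝ (Fin (m + 1)) × ℝ =>
        (√2)⁻¹ * lastCoord m p.1 + (3 / 2) * p.2) := by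
      have h3 : ContDiff ℝ (↑(⊤ : ℕ∞))
          (fun p : EuclideanSpace ℝ (Fin (m + 1)) × ℝ => lastCoord m p.1) :=
        (lastCoord m).contDiff.comp contDiff_fst
      exact (contDiff_const.mul h3).add (contDiff_const.mul contDiff_snd)
    exact h1.comp h2
  refine ⟨wave m, hsm, fun x t => ⟨wave_pos m _, wave_lt_one m _,
    wave_equation m x t, wave_space_mono m x t, wave_time_mono m x t⟩, ?_⟩
  rintro T ⟨ν, g, h⟩
  have h1 := h 0 T le_rfl
  have h2 := h 0 (T - 1) (by linarith)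
  rw [← h2] at h1
  unfold wave at h1
  rw [Real.sigmoid_inj] at h1
  linarith

end Pool.Agent.Results.MP_7987d1_an.ExplicitWave
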